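import Mathlib

set_option autoImplicit false

namespace Pool.Agent.Results.MP_fdfd6d_gt.Yes

open Set Filter Topology Metric TopologicalSpace

/-- the order of p in the sense of Menger and Urysohn is at most n -/
def OrderLE {X : Type} [TopologicalSpace X] (p : X) (n : ℕ) : Prop :=
  ∀ N ∈ 𝓝 p, ∃ U, IsOpen U ∧ p ∈ U ∧ U ⊆ N ∧ (frontier U).encard ≤ n

/-- a one-dimensional continuum all of whose points have finite order -/
def FinOrderCurve (X : Type) [MetricSpace X] : Prop :=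
  CompactSpace X ∧ ConnectedSpace X ∧ smallInductiveDimension X = 1 ∧ ∀ p : X, ∃ n, OrderLE p n

def MonotonelyRefinable {X Y : Type} [MetricSpace X] [MetricSpace Y] (r : X → Y) : Prop :=
  Continuous r ∧ Function.Surjective r ∧ ∀ ε > 0, ∃ f : X → Y, Continuous f ∧
    Function.Surjective f ∧ (∀ y, IsConnected (f ⁻¹' {y}) ∧ diam (f ⁻¹' {y}) < ε) ∧
      ∀ x, dist (f x) (r x) < ε

def C (a : ℝ) (φ : ℝ → ℝ) : Set (ℝ × ℝ) := {p | p.1 ∈ Icc a 1 ∧ p.2 ∈ Icc 0 (φ p.1)}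

structure Ok (φ : ℝ → ℝ) : Prop where
  nn : ∀ x, 0 ≤ φ x
  le : ∀ x, φ x ≤ 1
  fin : ∀ m > 0, {x | m ≤ φ x}.Finite

variable {a : ℝ} {φ : ℝ → ℝ}

lemma cpt (h : Ok φ) : CompactSpace (C a φ) := by
  refine isCompact_iff_compactSpace.1 ((isCompact_Icc.prod (isCompact_Icc (a := (0 : ℝ))
    (b := 1))).of_isClosed_subset (isClosed_of_closure_subset fun q hq => ?_)
    fun q hq => ⟨hq.1, hq.2.1, hq.2.2.trans (h.le _)⟩)
  refine ⟨closure_minimal (fun _ h => h.1) (isClosed_Icc.preimage continuous_fst) hq,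
    closure_minimal (fun _ h => h.2.1) (isClosed_Ici.preimage continuous_snd) hq, ?_⟩
  by_contra! H
  have := closure_minimal (t := {p | p.2 ≤ q.2 / 2} ∪ ⋃ x ∈ {x | q.2 / 2 ≤ φ x}, {x} ×ˢ Iic (φ x))
    (fun p hp => (le_total p.2 (q.2 / 2)).imp id fun h => mem_iUnion₂.2
      ⟨p.1, h.trans hp.2.2, rfl, hp.2.2⟩) ((isClosed_le (by fun_prop) (by fun_prop)).union
      ((h.fin _ (by linarith [h.nn q.1])).isClosed_biUnion fun _ _ =>
        isClosed_singleton.prod isClosed_Iic)) hq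
  rcases this with e | e
  · linarith [h.nn q.1, mem_ofPred.1 e]
  · obtain ⟨x, -, rfl, e⟩ := mem_iUnion₂.1 e
    exact H.not_ge e

lemma pc (P : ℝ × ℝ → Prop) (h1 : ∀ x y t, P (x, y) → 0 ≤ t → t ≤ y → P (x, t))
    (h2 : OrdConnected {x | P (x, 0)}) (h : Ok φ) : IsPreconnected {q : C a φ | P q.1} := by
  rw [← IsInducing.subtypeVal.isPreconnected_image]
  have v (p : C a φ) (hp : P p.1) : ({p.1.1} : Set ℝ) ×ˢ Icc 0 p.1.2 ⊆
      Subtype.val '' {q : C a φ | P q.1} :=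
    fun q hq => ⟨⟨q, hq.1 ▸ p.2.1, hq.2.1, hq.1 ▸ hq.2.2.trans p.2.2.2⟩,
      by simpa [← show q.1 = _ from hq.1] using h1 _ _ _ hp hq.2.1 hq.2.2, rfl⟩
  refine isPreconnected_of_forall_pair ?_
  rintro _ ⟨p, hp, rfl⟩ _ ⟨q, hq, rfl⟩
  refine ⟨{p.1.1} ×ˢ Icc 0 p.1.2 ∪ (uIcc p.1.1 q.1.1 ×ˢ {0} ∪ {q.1.1} ×ˢ Icc 0 q.1.2),
    union_subset (v p hp) (union_subset ?_ (v q hq)), .inl ⟨rfl, p.2.2.1, le_rfl⟩,
    .inr (.inr ⟨rfl, q.2.2.1, le_rfl⟩), .union (p.1.1, 0) ⟨rfl, le_rfl, p.2.2.1⟩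
      (.inl ⟨left_mem_uIcc, rfl⟩) (isPreconnected_singleton.prod isPreconnected_Icc)
      (.union (q.1.1, 0) ⟨right_mem_uIcc, rfl⟩ ⟨rfl, le_rfl, q.2.2.1⟩
        (isPreconnected_uIcc.prod isPreconnected_singleton)
        (isPreconnected_singleton.prod isPreconnected_Icc))⟩
  rintro ⟨x, _⟩ ⟨hx, rfl⟩
  exact ⟨⟨(x, 0), ordConnected_Icc.uIcc_subset p.2.1 q.2.1 hx, le_rfl, h.nn _⟩,
    h2.uIcc_subset (h1 _ _ _ hp le_rfl p.2.2.1) (h1 _ _ _ hq le_rfl q.2.2.1) hx, rfl⟩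

lemma sep (h : Ok φ) (x : ℝ) {m : ℝ} (hm : 0 < m) : ∀ᶠ y in 𝓝 x, m ≤ φ y → y = x :=
  (((h.fin m hm).subset (sdiff_subset (t := {x}))).isClosed.isOpen_compl.eventually_mem
    (fun h => h.2 rfl)).mono fun _ hy e => not_not.1 fun e' => hy ⟨e, e'⟩

lemma ord (h : Ok φ) (p : C a φ) : OrderLE p 4 := by
  intro N hN
  obtain ⟨ε, e0, he⟩ := Metric.mem_nhds_iff.1 hN
  obtain ⟨η, η1, η2, η3⟩ := ((countable_singleton p.1.2).dense_compl ℝ).exists_between e0
  obtain ⟨δ0, d0, hd⟩ := Metric.eventually_nhds_iff.1 (sep h p.1.1 (m := min η |p.1.2 - η|)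
    (lt_min η2 (abs_pos.2 (sub_ne_zero.2 (Ne.symm η1)))))
  have cn : {x | φ x ≠ 0}.Countable := (countable_iUnion fun n : ℕ =>
    (h.fin (1 / (n + 1)) Nat.one_div_pos_of_nat).countable).mono fun x hx => by
      obtain ⟨n, hn⟩ := exists_nat_one_div_lt ((h.nn x).lt_of_ne' hx)
      exact mem_iUnion.2 ⟨n, hn.le⟩
  obtain ⟨δ, δ1, δ2, δ3⟩ := (((cn.preimage (add_right_injective p.1.1)).union
    (cn.preimage (sub_right_injective (b := p.1.1)))).dense_compl ℝ).exists_between (lt_min e0 d0)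
  rw [lt_min_iff] at δ3
  simp only [mem_compl_iff, mem_union, mem_preimage, mem_ofPred, not_or, not_not] at δ1
  refine ⟨{q | max (|q.1.1 - p.1.1| - δ) (|q.1.2 - p.1.2| - η) < 0},
    isOpen_lt (by fun_prop) (by fun_prop), by simp [δ2, η2], fun q hq => he ?_, ?_⟩
  · rw [mem_ofPred, max_lt_iff] at hq
    exact max_lt (show |q.1.1 - p.1.1| < ε by linarith) (show |q.1.2 - p.1.2| < ε by linarith)
  · rw [← Subtype.val_injective.encard_image]
    refine (encard_le_encard (t := {(p.1.1 + δ, 0), (p.1.1 - δ, 0), (p.1.1, p.1.2 + η),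
      (p.1.1, p.1.2 - η)}) ?_).trans ((encard_insert_le _ _).trans (add_le_add_left
        ((encard_insert_le _ _).trans (add_le_add_left ((encard_insert_le _ _).trans
          (by rw [encard_singleton])) _)) _) |>.trans (by norm_num))
    rintro _ ⟨⟨⟨x, y⟩, hx, y0, y1⟩, hq, rfl⟩
    have e := frontier_lt_subset_eq (by fun_prop) (by fun_prop) hq
    simp only [mem_ofPred] at e y0 y1
    simp only [mem_insert_iff, mem_singleton_iff, Prod.mk.injEq]
    rcases max_eq_iff.1 e with ⟨e, -⟩ | ⟨e, e'⟩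
    · rcases (abs_eq δ2.le).1 (sub_eq_zero.1 e) with e | e
      · obtain rfl : x = p.1.1 + δ := by linarith
        exact .inl ⟨rfl, by linarith⟩
      · obtain rfl : x = p.1.1 - δ := by linarith
        exact .inr (.inl ⟨rfl, by linarith⟩)
    · have k := @hd x (by rw [Real.dist_eq]; linarith)
      rcases (abs_eq η2.le).1 (sub_eq_zero.1 e) with e | e
      · exact .inr (.inr (.inl ⟨k ((min_le_left _ _).trans (by linarith [p.2.2.1])), by linarith⟩))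
      · exact .inr (.inr (.inr ⟨k ((min_le_right _ _).trans (by
          rw [abs_of_nonneg] <;> linarith)), by linarith⟩))

lemma curve (h : Ok φ) (ha : a < 1) : FinOrderCurve (C a φ) := by
  let p : C a φ := ⟨(a, 0), ⟨le_rfl, ha.le⟩, le_rfl, h.nn _⟩
  let q : C a φ := ⟨(1, 0), ⟨ha.le, le_rfl⟩, le_rfl, h.nn _⟩
  have : ConnectedSpace (C a φ) := connectedSpace_iff_univ.2
    ⟨⟨p, trivial⟩, pc (fun _ => True) (by simp) (by simpa using ordConnected_univ) h⟩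
  refine ⟨cpt h, this, smallInductiveDimension_eq 1 (.succ _ {U | IsOpen U ∧ (frontier U).Finite}
    (isTopologicalBasis_of_isOpen_of_nhds (fun _ h => h.1) fun x u hx hu => ?_) fun U hU => ?_)
    fun H => ?_, fun p => ⟨4, ord h p⟩⟩
  · obtain ⟨U, u1, u2, u3, u4⟩ := ord h x u (hu.mem_nhds hx)
    exact ⟨U, ⟨u1, finite_of_encard_le_coe u4⟩, u2, u3⟩
  · have := hU.2.to_subtype
    exact hasSmallInductiveDimensionLT_one_iff.2 (isTopologicalBasis_of_isOpen_of_nhds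
      (fun _ h => h.2) fun x u hx _ => ⟨u, isClopen_discrete u, hx, le_rfl⟩)
  · obtain ⟨U, u1, u2, u3⟩ := (hasSmallInductiveDimensionLT_one_iff.1 H).exists_subset_of_mem_open
      (show p ∈ ({q}ᶜ : Set _) from fun e => ha.ne (congrArg (·.1.1) e)) isOpen_compl_singleton
    exact u3 (IsClopen.eq_univ u1 ⟨p, u2⟩ ▸ mem_univ q) rfl

def T {X : Type} [TopologicalSpace X] (p : X) : Prop :=
  ∃ A B, IsPreconnected A ∧ IsPreconnected B ∧ A ∪ B = {p}ᶜ

lemma isT (h : Ok φ) (p : C a φ) (hp : p.1.2 = 0 → φ p.1.1 = 0) : T p := by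
  by_cases e : p.1.2 = 0
  · refine ⟨_, _, pc (·.1 < p.1.1) (fun _ _ _ h _ _ => h) ordConnected_Iio h,
      pc (p.1.1 < ·.1) (fun _ _ _ h _ _ => h) ordConnected_Ioi h, ext fun q => ?_⟩
    simp only [mem_union, mem_ofPred, lt_or_lt_iff_ne, mem_compl_iff, mem_singleton_iff]
    exact not_congr ⟨fun h => Subtype.ext (Prod.ext h (e ▸ le_antisymm
      (hp e ▸ h ▸ q.2.2.2) q.2.2.1)), fun h => h ▸ rfl⟩
  · have := p.2.2.1.lt_of_ne' e
    refine ⟨{q | q.1.1 = p.1.1 ∧ p.1.2 < q.1.2}, _, ?_, pc (fun q => q.1 = p.1.1 → q.2 < p.1.2)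
      (fun _ _ _ h _ t e => t.trans_lt (h e)) (by simpa [this] using ordConnected_univ) h,
      ext fun q => ?_⟩
    · rw [← IsInducing.subtypeVal.isPreconnected_image]
      convert (isPreconnected_singleton (x := p.1.1)).prod
        (isPreconnected_Ioc (a := p.1.2) (b := φ p.1.1)) using 1
      refine ext fun q => ⟨?_, fun h => ⟨⟨q, h.1 ▸ p.2.1, this.le.trans h.2.1.le, h.1 ▸ h.2.2⟩,
        ⟨h.1, h.2.1⟩, rfl⟩⟩
      rintro ⟨q, hq, rfl⟩
      exact ⟨hq.1, hq.2, hq.1 ▸ q.2.2.2⟩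
    · simp only [mem_union, mem_ofPred, mem_compl_iff, mem_singleton_iff, Subtype.ext_iff,
        Prod.ext_iff]
      grind

lemma notT (h : Ok φ) (p : C a φ) (e : p.1.2 = 0) (hp : 0 < φ p.1.1) (h1 : a < p.1.1)
    (h2 : p.1.1 < 1) : ¬T p := by
  rintro ⟨A, B, hA, hB, u⟩
  let f : C a φ → SignType := fun q => SignType.sign (q.1.1 - p.1.1)
  have c : ContinuousOn f {p}ᶜ := fun q hq => ContinuousAt.continuousWithinAt (by
    by_cases e' : q.1.1 = p.1.1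
    · have : 0 < q.1.2 := q.2.2.1.lt_of_ne' fun h => hq (Subtype.ext (Prod.ext e' (h.trans e.symm)))
      refine continuousAt_const.congr (f := fun _ => 0) ?_
      filter_upwards [(continuous_subtype_val.fst.tendsto q).eventually (sep h _ (half_pos this)),
        (continuous_subtype_val.snd.tendsto q).eventually_const_lt (half_lt_self this)] with z z1 z2
      simp [f, z1 (z2.le.trans z.2.2.2), e']
    · exact (continuousAt_sign_of_ne_zero (sub_ne_zero.2 e')).comp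
        (f := fun q : C a φ => q.1.1 - p.1.1) (by fun_prop))
  have k {S} (hS : IsPreconnected S) (s : S ⊆ A ∪ B) {x y} (hx : x ∈ S) (hy : y ∈ S) : f x = f y :=
    hS.constant (c.mono (u ▸ s)) hx hy
  let l : C a φ := ⟨(a, 0), ⟨le_rfl, p.2.1.1.trans p.2.1.2⟩, le_rfl, h.nn _⟩
  let r : C a φ := ⟨(1, 0), ⟨p.2.1.1.trans p.2.1.2, le_rfl⟩, le_rfl, h.nn _⟩
  let t : C a φ := ⟨(p.1.1, φ p.1.1), p.2.1, hp.le, le_rfl⟩
  have fl : f l = -1 := sign_neg (sub_neg.2 h1)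
  have fr : f r = 1 := sign_pos (sub_pos.2 h2)
  have ft : f t = 0 := by simp [f, t]
  have ml : l ∈ A ∪ B := u ▸ fun e => h1.ne (congrArg (·.1.1) e)
  have mr : r ∈ A ∪ B := u ▸ fun e => h2.ne' (congrArg (·.1.1) e)
  have mt : t ∈ A ∪ B := u ▸ fun e' => hp.ne' ((congrArg (·.1.2) e').trans e)
  have kA := @k A hA subset_union_left
  have kB := @k B hB subset_union_right
  rcases ml with ml | ml <;> rcases mr with mr | mr <;> rcases mt with mt | mt <;>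
  first
  | simpa [fl, fr] using kA ml mr
  | simpa [fl, fr] using kB ml mr
  | simpa [fl, ft] using kA ml mt
  | simpa [fl, ft] using kB ml mt
  | simpa [fr, ft] using kA mr mt
  | simpa [fr, ft] using kB mr mt

open Classical in
noncomputable def ψ (x : ℝ) : ℝ := if ∃ k : ℕ, x = (1 / 2) ^ (k + 1) then x else 0

lemma ψ_eq (k : ℕ) : ψ ((1 / 2) ^ (k + 1)) = (1 / 2) ^ (k + 1) := if_pos ⟨k, rfl⟩

lemma ψ_ne {x : ℝ} (h : ψ x ≠ 0) : ∃ k : ℕ, x = (1 / 2) ^ (k + 1) :=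
  not_not.1 fun e => h (if_neg e)

lemma half (k : ℕ) : (1 / 2 : ℝ) ^ (k + 1) ∈ Ioc 0 (1 / 2) :=
  ⟨by positivity, pow_le_of_le_one (by norm_num) (by norm_num) k.succ_ne_zero⟩

lemma ψ0 {x : ℝ} (h : x ≤ 0 ∨ 1 / 2 < x) : ψ x = 0 := not_not.1 fun e => by
  obtain ⟨k, rfl⟩ := ψ_ne e
  rcases h with h | h <;> linarith [(half k).1, (half k).2]

lemma ψb (x : ℝ) : 0 ≤ ψ x ∧ ψ x ≤ 1 / 2 ∧ (0 ≤ x → ψ x ≤ x) := by
  by_cases e : ψ x = 0
  · simp [e]
  · obtain ⟨k, rfl⟩ := ψ_ne e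
    rw [ψ_eq]
    exact ⟨(half k).1.le, (half k).2, fun _ => le_rfl⟩

lemma tz : Tendsto (fun k : ℕ => (1 / 2 : ℝ) ^ (k + 1)) atTop (𝓝 0) :=
  (tendsto_pow_atTop_nhds_zero_of_lt_one (by norm_num) (by norm_num)).comp (tendsto_add_atTop_nat 1)

lemma okY : Ok ψ := ⟨fun x => (ψb x).1, fun x => by linarith [(ψb x).2.1], fun m hm => by
  have := tz.eventually_lt_const hm
  rw [← Nat.cofinite_eq_atTop] at this
  refine (Finite.image (fun k : ℕ => (1 / 2 : ℝ) ^ (k + 1)) this).subset fun x hx => ?_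
  obtain ⟨k, rfl⟩ := ψ_ne (hm.trans_le hx).ne'
  exact ⟨k, fun h => h.not_ge (by rwa [mem_ofPred, ψ_eq] at hx), rfl⟩⟩

noncomputable def χ (x : ℝ) : ℝ := ψ x + ψ (x + 1)

lemma χp {x : ℝ} (h : 0 ≤ x) : χ x = ψ x := by rw [χ, ψ0 (x := x + 1) (.inr (by linarith)), add_zero]
lemma χn {x : ℝ} (h : x ≤ 0) : χ x = ψ (x + 1) := by rw [χ, ψ0 (.inl h), zero_add]

lemma okX : Ok χ := ⟨fun x => add_nonneg (ψb _).1 (ψb _).1,
  fun x => by linarith [(ψb x).2.1, (ψb (x + 1)).2.1, show χ x = ψ x + ψ (x + 1) from rfl],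
  fun m hm => ((okY.fin m hm).union ((okY.fin m hm).preimage
    (add_left_injective 1).injOn)).subset fun x hx => (le_total 0 x).imp
      (fun h => by rwa [mem_ofPred, χp h] at hx) fun h => by rwa [mem_ofPred, χn h] at hx⟩

lemma lim {w : ℕ → C 0 ψ} {z : C 0 ψ} (i : Function.Injective w) (h : ∀ k, ¬T (w k))
    (t : Tendsto w atTop (𝓝 z)) : z.1 = 0 := by
  have h (k) : (w k).1.2 = 0 ∧ ψ (w k).1.1 ≠ 0 := by
    by_contra! H
    exact h k (isT okY _ H)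
  have e : z.1.1 ≤ 0 := le_of_forall_pos_le_add fun m hm => by
    refine le_of_tendsto ((continuous_subtype_val.fst.tendsto z).comp t) ?_
    rw [← Nat.cofinite_eq_atTop]
    refine ((okY.fin m hm).preimage (f := fun k => (w k).1.1) fun k _ l _ e =>
      i (Subtype.ext (Prod.ext e ((h k).1.trans (h l).1.symm)))).subset fun k hk => ?_
    obtain ⟨j, hj⟩ := ψ_ne (h k).2
    have : ¬(w k).1.1 ≤ 0 + m := hk
    simp only [mem_preimage, mem_ofPred, zero_add, not_le, hj, ψ_eq] at this ⊢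
    exact this.le
  exact Prod.ext (e.antisymm z.2.1.1) ((ψ0 (.inl e) ▸ z.2.2.2).antisymm z.2.2.1)

lemma nothomeo : IsEmpty (C (-1) χ ≃ₜ C 0 ψ) := ⟨fun e => by
  have k (b : ℝ) (hb : b ∈ Icc (-1 : ℝ) 0)
      (h : ∀ k : ℕ, χ (b + (1 / 2) ^ (k + 1)) = (1 / 2) ^ (k + 1)) :
      (e ⟨(b, 0), ⟨hb.1, by linarith [hb.2]⟩, le_rfl, okX.nn _⟩).1 = 0 := by
    let w : ℕ → C (-1) χ := fun k => ⟨(b + (1 / 2) ^ (k + 1), 0),
      ⟨by linarith [hb.1, (half k).1], by linarith [hb.2, (half k).2]⟩, le_rfl, okX.nn _⟩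
    refine lim (w := e ∘ w) (e.injective.comp fun k l h => ?_) (fun k ⟨A, B, hA, hB, u⟩ =>
      notT okX (w k) rfl (h k ▸ (half k).1) (by linarith [hb.1, (half k).1])
        (by linarith [hb.2, (half k).2]) ⟨_, _, e.isPreconnected_preimage.2 hA,
          e.isPreconnected_preimage.2 hB, by
            rw [← preimage_union, u]; ext; simp⟩) ((e.continuous.tendsto _).comp ?_)
    · simpa [w] using pow_right_injective₀ (by norm_num) (by norm_num)
        (add_left_cancel (congrArg (·.1.1) h))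
    · exact tendsto_subtype_rng.2 (by
        simpa [w] using (tz.const_add b).prodMk_nhds (tendsto_const_nhds (x := (0 : ℝ))))
  have := e.injective (Subtype.ext ((k 0 (by simp) fun k => by
    rw [zero_add, χp (half k).1.le, ψ_eq]).trans (k (-1) (by simp) fun k => by
    rw [χn (by linarith [(half k).2]), neg_add_cancel_comm, ψ_eq]).symm))
  simp at this⟩

noncomputable def F (c : ℝ) (q : ℝ × ℝ) : ℝ × ℝ :=
  if q.1 ≤ 0 then (c * (q.1 + 1), c * q.2) else (max q.1 c, min q.2 (max 0 (2 * q.1 - c)))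

variable {c : ℝ}

def Gd (c : ℝ) : Prop := c = 0 ∨ ∃ n : ℕ, c = (1 / 2) ^ (n + 1)

lemma Gd.b (hc : Gd c) : 0 ≤ c ∧ c ≤ 1 / 2 := by
  rcases hc with rfl | ⟨n, rfl⟩
  exacts [by simp, ⟨(half n).1.le, (half n).2⟩]

lemma y0 (q : C (-1) χ) (h : q.1.1 = 0) : q.1.2 = 0 :=
  le_antisymm (by simpa [h, χp le_rfl, ψ0] using q.2.2.2) q.2.2.1

lemma Fc (hc : Gd c) : Continuous fun q : C (-1) χ => F c q.1 :=
  .if_le (by fun_prop) (by fun_prop) (by fun_prop) (by fun_prop) fun q h => by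
    simp [h, y0 q h, hc.b.1]

def K (c : ℝ) (q : ℝ × ℝ) : Prop := 0 ≤ q.1 ∧ q.1 ≤ c ∧ (q.1 = c → q.2 ≤ 0)

lemma tri (hc : Gd c) (q : C (-1) χ) : (K c q.1 ∧ F c q.1 = (c, 0)) ∨
    (q.1.1 < 0 ∧ F c q.1 = (c * (q.1.1 + 1), c * q.1.2)) ∨
    (c ≤ q.1.1 ∧ q.1 ≠ (c, 0) ∧ F c q.1 = q.1) := by
  rcases lt_trichotomy q.1.1 0 with h | h | h
  · exact .inr (.inl ⟨h, if_pos h.le⟩)
  · exact .inl ⟨by simp [K, h, y0 q h, hc.b.1], by simp [F, h, y0 q h]⟩
  obtain ⟨⟨x, y⟩, hx, y0, y1⟩ := q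
  simp only at h y0 y1 ⊢
  clear hx
  rw [χp h.le] at y1
  have y2 := y1.trans ((ψb x).2.2 h.le)
  rw [F, if_neg h.not_ge]
  by_cases e : K c (x, y)
  · refine .inl ⟨e, Prod.ext (max_eq_right e.2.1) ?_⟩
    rcases y0.eq_or_lt with rfl | y0
    · simp
    obtain ⟨k, rfl⟩ := ψ_ne (y0.trans_le y1).ne'
    rcases hc with rfl | ⟨n, rfl⟩
    · exact absurd e.2.1 h.not_ge
    have := (pow_lt_pow_iff_right_of_lt_one₀ (by norm_num) (by norm_num)).1
      (e.2.1.lt_of_ne fun h => (e.2.2 h).not_gt y0)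
    have := pow_le_pow_of_le_one (a := (1 / 2 : ℝ)) (by norm_num) (by norm_num)
      (show n + 1 ≤ k by omega)
    simp only
    rw [max_eq_left (by rw [pow_succ _ k]; linarith), min_eq_right y0.le]
  · have : c ≤ x := by
      by_contra! H
      exact e ⟨h.le, H.le, fun h => absurd h H.ne⟩
    exact .inr (.inr ⟨this, fun h' => e (h' ▸ ⟨hc.b.1, le_rfl, fun _ => le_rfl⟩),
      Prod.ext (max_eq_left this) (min_eq_left (le_max_of_le_right (by linarith)))⟩)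

lemma Fm (hc : Gd c) (q : C (-1) χ) : F c q.1 ∈ C 0 ψ := by
  obtain ⟨c0, c1⟩ := hc.b
  obtain ⟨⟨x0, x1⟩, y0, y1⟩ := q.2
  rcases tri hc q with ⟨-, e⟩ | ⟨h, e⟩ | ⟨h, -, e⟩ <;> rw [e]
  · exact ⟨⟨c0, by linarith⟩, le_rfl, (ψb _).1⟩
  · refine ⟨⟨mul_nonneg c0 (by linarith), by nlinarith⟩, mul_nonneg c0 y0, ?_⟩
    rw [χn h.le] at y1
    rcases y0.eq_or_lt with y0 | y0
    · simpa [← y0] using (ψb _).1
    rcases hc with rfl | ⟨n, rfl⟩
    · simpa using (ψb _).1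
    obtain ⟨k, hk⟩ := ψ_ne (y0.trans_le y1).ne'
    rw [hk, ψ_eq] at y1
    simp only [hk]
    rw [← pow_add, ← add_assoc, ψ_eq, add_assoc, pow_add _ (n + 1)]
    gcongr
  · exact ⟨⟨c0.trans h, x1⟩, y0, χp (c0.trans h) ▸ y1⟩

noncomputable def f (hc : Gd c) (q : C (-1) χ) : C 0 ψ := ⟨_, Fm hc q⟩

lemma fs (hc : Gd c) : Function.Surjective (f hc) := by
  rintro ⟨⟨x, y⟩, ⟨x0, x1⟩, y0, y1⟩
  simp only at x0 x1 y0 y1
  rcases le_or_gt c x with h | h
  · let q : C (-1) χ := ⟨(x, y), ⟨by linarith, x1⟩, y0, (χp x0).symm ▸ y1⟩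
    refine ⟨q, Subtype.ext ?_⟩
    rcases tri hc q with ⟨k, e⟩ | ⟨k, -⟩ | ⟨-, -, e⟩
    · exact e.trans (Prod.ext (h.antisymm k.2.1) (y0.antisymm (k.2.2 (k.2.1.antisymm h))))
    exacts [absurd x0 k.not_ge, e]
  · have c0 := x0.trans_lt h
    have := (div_lt_one c0).2 h
    refine ⟨⟨(x / c - 1, y / c), ⟨by linarith [div_nonneg x0 c0.le], by linarith⟩,
      div_nonneg y0 c0.le, ?_⟩, Subtype.ext ((if_pos (show x / c - 1 ≤ 0 by linarith)).trans (by
        simp [mul_div_cancel₀ _ c0.ne']))⟩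
    rw [χn (by linarith), sub_add_cancel]
    rcases y0.eq_or_lt with rfl | y0
    · simpa using (ψb _).1
    obtain ⟨k, rfl⟩ := ψ_ne (y0.trans_le y1).ne'
    rcases hc with rfl | ⟨n, rfl⟩
    · simp at c0
    obtain ⟨j, rfl⟩ : ∃ j, k = j + (n + 1) := ⟨k - (n + 1), by
      have := (pow_lt_pow_iff_right_of_lt_one₀ (by norm_num) (by norm_num)).1 h
      omega⟩
    rw [ψ_eq] at y1
    rw [add_right_comm j, pow_add _ (j + 1)] at y1 ⊢
    rw [mul_div_cancel_right₀ _ c0.ne', ψ_eq]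
    exact (div_le_iff₀ c0).2 y1

theorem result : ∃ (X Y : Type) (_ : MetricSpace X) (_ : MetricSpace Y),
    FinOrderCurve X ∧ FinOrderCurve Y ∧ IsEmpty (X ≃ₜ Y) ∧ ∃ r : X → Y, MonotonelyRefinable r := by
  refine ⟨C (-1) χ, C 0 ψ, _, _, curve okX (by norm_num), curve okY one_pos, nothomeo,
    f (.inl rfl), (Fc (.inl rfl)).subtype_mk _, fs _, fun ε h => ?_⟩
  obtain ⟨n, hn⟩ := (tz.eventually_lt_const h).exists
  have c0 := (half n).1
  have hc : Gd _ := .inr ⟨n, rfl⟩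
  generalize (1 / 2 : ℝ) ^ (n + 1) = c at *
  refine ⟨f hc, (Fc hc).subtype_mk _, fs _, fun z => ?_, fun q => lt_of_le_of_lt ?_ hn⟩
  · by_cases e : z.1 = (c, 0)
    · have : f hc ⁻¹' {z} = {q | K c q.1} := ext fun q => by
        rw [mem_preimage, mem_singleton_iff, Subtype.ext_iff, e]
        change F c q.1 = _ ↔ K c q.1
        rcases tri hc q with ⟨k, e⟩ | ⟨k, e⟩ | ⟨k, k', e⟩ <;> rw [e]
        · simp [k]
        · exact ⟨fun h => by nlinarith [(Prod.ext_iff.1 h).1], fun h => absurd h.1 k.not_ge⟩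
        · exact ⟨fun h => absurd h k', fun h => Prod.ext (h.2.1.antisymm k)
            ((h.2.2 (h.2.1.antisymm k)).antisymm q.2.2.1)⟩
      refine ⟨⟨fs hc z, this ▸ pc _ (fun _ _ _ h _ t => ⟨h.1, h.2.1, fun e => t.trans (h.2.2 e)⟩)
        (by simpa [K, Icc_def] using ordConnected_Icc) okX⟩, lt_of_le_of_lt
        (this ▸ diam_le_of_forall_dist_le c0.le fun p hp q hq => ?_) hn⟩
      have b (q : C (-1) χ) (h : K c q.1) := (χp h.1 ▸ q.2.2.2).trans ((ψb _).2.2 h.1)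
      exact max_le (abs_le.2 ⟨by linarith [hp.1, hq.2.1], by linarith [hq.1, hp.2.1]⟩)
        (abs_le.2 ⟨by linarith [p.2.2.1, b q hq, hq.2.1], by linarith [q.2.2.1, b p hp, hp.2.1]⟩)
    · have : (f hc ⁻¹' {z}).Subsingleton := fun p hp q hq => by
        have hp : F c p.1 = z.1 := congrArg Subtype.val hp
        have hq : F c q.1 = z.1 := congrArg Subtype.val hq
        rcases tri hc p with ⟨-, e1⟩ | ⟨k, e1⟩ | ⟨k, -, e1⟩
        · exact absurd (hp.symm.trans e1) e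
        all_goals
          rcases tri hc q with ⟨-, e2⟩ | ⟨k', e2⟩ | ⟨k', -, e2⟩
          · exact absurd (hq.symm.trans e2) e
          all_goals
            obtain ⟨h1, h2⟩ := Prod.ext_iff.1 (e1.symm.trans (hp.trans (hq.symm.trans e2)))
            exact Subtype.ext (Prod.ext (by nlinarith) (by nlinarith))
      exact ⟨⟨fs hc z, this.isPreconnected⟩, by rwa [diam_subsingleton this]⟩
  · change dist (F c q.1) (F 0 q.1) ≤ c
    unfold F
    split_ifs with e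
    · obtain ⟨⟨x0, -⟩, y0, y1⟩ := q.2
      have := y1.trans (okX.le _)
      exact max_le (abs_le.2 ⟨by nlinarith, by nlinarith⟩) (abs_le.2 ⟨by nlinarith, by nlinarith⟩)
    · refine max_le ((abs_max_sub_max_le_max _ _ _ _).trans (by simp [c0.le, abs_of_pos c0]))
        ((abs_min_sub_min_le_max _ _ _ _).trans (max_le (by simp [c0.le])
          ((abs_max_sub_max_le_max _ _ _ _).trans (by simp [c0.le, abs_of_pos c0]))))

end Pool.Agent.Results.MP_fdfd6d_gt.Yes
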